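import Pool.Agent.Helper84.FX.StX

/-!
# Project FX, module TCU: tameness of `U` on the target
-/

set_option autoImplicit false

namespace Pool.Agent.Helper80.FX

open Pool.Agent.Helper84.FX Pool.Agent.Helper72.FX

open Set

theorem hTCU : StTMC → StTCU := by
  intro hT U hU
  have hO : IsOpen {q : ℂ × (Fin 12 → ℂ) | q.2 2 ∈ U} :=
    hU.preimage ((continuous_apply 2).comp continuous_snd)
  have h := hT (ℂ × (Fin 12 → ℂ)) ℂ (Fin 0 → ℝ) {q : ℂ × (Fin 12 → ℂ) | q.2 2 ∈ U}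
    (fun _ => 0) (fun q => q.1) hO contDiffOn_const contDiff_fst.contDiffOn ?_
  · have hs : {x : ℂ × (Fin 12 → ℂ) | x ∈ {q : ℂ × (Fin 12 → ℂ) | q.2 2 ∈ U} ∧
        (fun _ : ℂ × (Fin 12 → ℂ) => (0 : Fin 0 → ℝ)) x = 0} =
        {q : ℂ × (Fin 12 → ℂ) | q.2 2 ∈ U} := by
      ext x
      constructor
      · exact fun hx => hx.1
      · exact fun hx => ⟨hx, rfl⟩
    rw [hs] at h
    exact h
  · intro x _ _ _ y
    have hd : HasFDerivAt (fun y : ℂ × (Fin 12 → ℂ) => ((0 : Fin 0 → ℝ), y.1))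
        ((0 : (ℂ × (Fin 12 → ℂ)) →L[ℝ] (Fin 0 → ℝ)).prod
          (ContinuousLinearMap.fst ℝ ℂ (Fin 12 → ℂ))) x :=
      (hasFDerivAt_const (0 : Fin 0 → ℝ) x).prodMk hasFDerivAt_fst
    refine ⟨(y.2, 0), ?_⟩
    rw [hd.fderiv]
    refine Prod.ext (Subsingleton.elim _ _) ?_
    rfl

end Pool.Agent.Helper80.FX
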