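import Pool.Agent.Helper87.FX.StC

/-!
# Project FX, module GDU: points with `U` and `F_l` not zero are good
-/

set_option autoImplicit false

namespace Pool.Agent.Helper80.FX

open Pool.Agent.Helper87.FX

open Set Topology Metric

theorem vel_mem_spn {V : Type} [NormedAddCommGroup V] [NormedSpace ℝ V] (𝓕 : Set (ℂ → V → V))
    (e : ℂ → V → V) (he : e ∈ 𝓕) (y : V) (c : ℂ) : vel e y c ∈ spn 𝓕 y := by
  apply Submodule.subset_span
  simp only [mem_iUnion]
  exact ⟨e, he, c, rfl⟩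

theorem hGDU (hF : StFLO) (hD : StDER) : StGDU := by
  intro n F H hH y l hU hl ξ hξ
  have hker : y.1 * ξ.2.1 + y.2.1 * ξ.1 - ∑ j, dj F y.2.2 j * ξ.2.2 j = 0 := by
    rw [← (hD n F).2 y ξ]
    exact hξ
  have hr := (hF n F H hH l).2.2.2.2.2
  have hlv := fun j => (hF n F H hH j).1.2.2.2.2
  obtain ⟨a, ha⟩ : ∃ a : ℂ, a = ξ.1 / dj F y.2.2 l := ⟨_, rfl⟩
  have ha' : a * dj F y.2.2 l = ξ.1 := by
    rw [ha]
    field_simp
  obtain ⟨ζ, hζ⟩ : ∃ ζ : Fin n → ℂ, ζ = ξ.2.2 - Pi.single l (a * y.2.1) := ⟨_, rfl⟩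
  have hsum : ∑ j, dj F y.2.2 j * ζ j = ∑ j, dj F y.2.2 j * ξ.2.2 j - y.2.1 * ξ.1 := by
    rw [hζ]
    have h1 : ∀ j, dj F y.2.2 j * (ξ.2.2 - Pi.single l (a * y.2.1) : Fin n → ℂ) j =
        dj F y.2.2 j * ξ.2.2 j - (if j = l then dj F y.2.2 j * (a * y.2.1) else 0) := by
      intro j
      rw [Pi.sub_apply, Pi.single_apply]
      split_ifs with h
      · ring
      · ring
    rw [Finset.sum_congr rfl (fun j _ => h1 j), Finset.sum_sub_distrib, Finset.sum_ite_eq']
    simp only [Finset.mem_univ, if_true]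
    rw [← ha']
    ring
  have key : ξ = vel (Er H l) y a + ∑ j, vel (El H j) y (ζ j / y.1) := by
    rw [hr y a]
    have h2 : ∑ j, vel (El H j) y (ζ j / y.1) =
        ((0 : ℂ), ∑ j, ζ j / y.1 * dj F y.2.2 j, ζ) := by
      rw [Finset.sum_congr rfl (fun j _ => hlv j y (ζ j / y.1))]
      refine Prod.ext ?_ (Prod.ext ?_ ?_)
      · simp [Prod.fst_sum]
      · simp [Prod.fst_sum, Prod.snd_sum]
      · simp only [Prod.snd_sum]
        have h3 : ∀ j, ζ j / y.1 * y.1 = ζ j := by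
          intro j
          field_simp
        simp only [h3]
        exact Finset.univ_sum_single ζ
    rw [h2]
    refine Prod.ext ?_ (Prod.ext ?_ ?_)
    · simp [ha']
    · simp only [Prod.snd_add, Prod.fst_add, zero_add]
      have h4 : ∑ j, ζ j / y.1 * dj F y.2.2 j = (∑ j, dj F y.2.2 j * ζ j) / y.1 := by
        rw [Finset.sum_div]
        refine Finset.sum_congr rfl fun j _ => ?_
        ring
      rw [h4, hsum, eq_div_iff hU]
      linear_combination hker
    · simp only [Prod.snd_add]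
      rw [hζ]
      abel
  rw [key]
  refine Submodule.add_mem _ (vel_mem_spn _ _ (Fam.r l) _ _) ?_
  exact Submodule.sum_mem _ fun j _ => vel_mem_spn _ _ (Fam.l j) _ _

end Pool.Agent.Helper80.FX
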