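import Pool.Agent.Helper87.FX.StB

/-!
# Project FX, module PRM: parametrization of a cell of the integer grid by the cube of its dimension
-/

set_option autoImplicit false

namespace Pool.Agent.Helper80.FX

open Pool.Agent.Helper87.FX

open Set Topology Metric

theorem hPRM : StPRM := by
  classical
  intro d c
  obtain ⟨s, hs⟩ : ∃ s : Finset (Fin d), s = Finset.univ.filter fun i => c i % 2 = 1 := ⟨_, rfl⟩
  have hcard : s.card = dm c := by rw [hs]; rfl
  have hmem : ∀ i, i ∈ s ↔ c i % 2 = 1 := by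
    intro i
    rw [hs]
    simp
  obtain ⟨ε, -⟩ : ∃ _ : s ≃ Fin (dm c), True := ⟨s.equivFinOfCardEq hcard, trivial⟩
  have hodd : ∀ i, i ∈ s → (((c i + 1) / 2 : ℤ) : ℝ) = ((c i / 2 : ℤ) : ℝ) + 1 := by
    intro i hi
    have h1 := (hmem i).1 hi
    have h2 : (c i + 1) / 2 = c i / 2 + 1 := by omega
    rw [h2]
    push_cast
    ring
  have heven : ∀ i, i ∉ s → (((c i + 1) / 2 : ℤ) : ℝ) = ((c i / 2 : ℤ) : ℝ) := by
    intro i hi
    have h1 : ¬ c i % 2 = 1 := fun h => hi ((hmem i).2 h)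
    have h2 : (c i + 1) / 2 = c i / 2 := by omega
    rw [h2]
  -- the key of a point of the cell
  have hkyodd : ∀ (x : Fin d → ℝ) (i : Fin d), i ∈ s →
      ((c i / 2 : ℤ) : ℝ) ≤ x i → x i ≤ ((c i / 2 : ℤ) : ℝ) + 1 →
      (ky x i = c i ↔ ((c i / 2 : ℤ) : ℝ) < x i ∧ x i < ((c i / 2 : ℤ) : ℝ) + 1) := by
    intro x i hi h1 h2
    have hc := (hmem i).1 hi
    constructor
    · intro h
      constructor
      · rcases lt_or_eq_of_le h1 with h3 | h3
        · exact h3
        · exfalso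
          have h4 : ky x i = ⌊x i⌋ + ⌈x i⌉ := rfl
          rw [← h3, Int.floor_intCast, Int.ceil_intCast] at h4
          omega
      · rcases lt_or_eq_of_le h2 with h3 | h3
        · exact h3
        · exfalso
          have h4 : ky x i = ⌊x i⌋ + ⌈x i⌉ := rfl
          have h5 : x i = ((c i / 2 + 1 : ℤ) : ℝ) := by
            rw [h3]
            push_cast
            ring
          rw [h5, Int.floor_intCast, Int.ceil_intCast] at h4
          omega
    · rintro ⟨h3, h4⟩
      have h5 : ⌊x i⌋ = c i / 2 := by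
        rw [Int.floor_eq_iff]
        exact ⟨h1, h4⟩
      have h6 : ⌈x i⌉ = c i / 2 + 1 := by
        rw [Int.ceil_eq_iff]
        push_cast
        constructor
        · linarith
        · linarith
      change ⌊x i⌋ + ⌈x i⌉ = c i
      rw [h5, h6]
      omega
  have hkyeven : ∀ (x : Fin d → ℝ) (i : Fin d), i ∉ s → x i = ((c i / 2 : ℤ) : ℝ) → ky x i = c i := by
    intro x i hi h1
    have hc : ¬ c i % 2 = 1 := fun h => hi ((hmem i).2 h)
    change ⌊x i⌋ + ⌈x i⌉ = c i
    rw [h1, Int.floor_intCast, Int.ceil_intCast]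
    omega
  -- the value of `φ`
  let φ : (Fin (dm c) → ℝ) → Fin d → ℝ := fun t i =>
    if h : i ∈ s then ((c i / 2 : ℤ) : ℝ) + t (ε ⟨i, h⟩) else ((c i / 2 : ℤ) : ℝ)
  let ψ : (Fin d → ℝ) → Fin (dm c) → ℝ := fun x k => x (ε.symm k).1 - ((c (ε.symm k).1 / 2 : ℤ) : ℝ)
  have hφ1 : ∀ t i (h : i ∈ s), φ t i = ((c i / 2 : ℤ) : ℝ) + t (ε ⟨i, h⟩) := by
    intro t i h
    simp only [φ, h, dif_pos]
  have hφ2 : ∀ t i, i ∉ s → φ t i = ((c i / 2 : ℤ) : ℝ) := by
    intro t i h
    simp only [φ, h, dif_neg, not_false_eq_true]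
  have hψ : ∀ x i (h : i ∈ s), ψ x (ε ⟨i, h⟩) = x i - ((c i / 2 : ℤ) : ℝ) := by
    intro x i h
    simp only [ψ, Equiv.symm_apply_apply]
  have hcub : ∀ t : Fin (dm c) → ℝ, t ∈ cub (dm c) → ∀ k, 0 ≤ t k ∧ t k ≤ 1 := by
    intro t ht k
    exact ⟨ht.1 k, ht.2 k⟩
  have hcell : ∀ x, x ∈ cell c → ∀ i, i ∈ s → ((c i / 2 : ℤ) : ℝ) ≤ x i ∧
      x i ≤ ((c i / 2 : ℤ) : ℝ) + 1 := by
    intro x hx i hi
    have h := hx i
    rw [hodd i hi] at h
    exact h
  have hcell2 : ∀ x, x ∈ cell c → ∀ i, i ∉ s → x i = ((c i / 2 : ℤ) : ℝ) := by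
    intro x hx i hi
    have h := hx i
    rw [heven i hi] at h
    exact le_antisymm h.2 h.1
  have hψcub : ∀ x ∈ cell c, ψ x ∈ cub (dm c) := by
    intro x hx
    constructor
    · intro k
      have h := hcell x hx (ε.symm k).1 (ε.symm k).2
      change 0 ≤ x (ε.symm k).1 - ((c (ε.symm k).1 / 2 : ℤ) : ℝ)
      linarith [h.1]
    · intro k
      have h := hcell x hx (ε.symm k).1 (ε.symm k).2
      change x (ε.symm k).1 - ((c (ε.symm k).1 / 2 : ℤ) : ℝ) ≤ 1
      linarith [h.2]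
  refine ⟨φ, ψ, ?_, ?_, ?_, hψcub, ?_, ?_, ?_⟩
  · refine continuous_pi fun i => ?_
    by_cases h : i ∈ s
    · have h1 : (fun t => φ t i) = fun t => ((c i / 2 : ℤ) : ℝ) + t (ε ⟨i, h⟩) := by
        funext t
        exact hφ1 t i h
      rw [h1]
      exact continuous_const.add (continuous_apply _)
    · have h1 : (fun t => φ t i) = fun _ => ((c i / 2 : ℤ) : ℝ) := by
        funext t
        exact hφ2 t i h
      rw [h1]
      exact continuous_const
  · refine continuous_pi fun k => ?_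
    exact (continuous_apply _).sub continuous_const
  · intro t ht i
    by_cases h : i ∈ s
    · rw [hφ1 t i h, hodd i h]
      have h1 := hcub t ht (ε ⟨i, h⟩)
      constructor
      · linarith [h1.1]
      · linarith [h1.2]
    · rw [hφ2 t i h, heven i h]
      exact ⟨le_refl _, le_refl _⟩
  · intro x hx
    funext i
    by_cases h : i ∈ s
    · rw [hφ1 _ i h, hψ x i h]
      ring
    · rw [hφ2 _ i h, hcell2 x hx i h]
  · intro t ht hk
    obtain ⟨ht1, k, hk1⟩ := ht
    obtain ⟨i, hi, rfl⟩ : ∃ (i : Fin d) (hi : i ∈ s), ε ⟨i, hi⟩ = k :=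
      ⟨(ε.symm k).1, (ε.symm k).2, by simp⟩
    have h1 := hcub t ht1 (ε ⟨i, hi⟩)
    have h2 := hφ1 t i hi
    have h3 := (hkyodd (φ t) i hi (by rw [h2]; linarith [h1.1]) (by rw [h2]; linarith [h1.2])).1
      (congrFun hk i)
    rw [h2] at h3
    rcases hk1 with h4 | h4
    · rw [h4] at h3
      linarith [h3.1]
    · rw [h4] at h3
      linarith [h3.2]
  · intro x hx hk
    refine ⟨hψcub x hx, ?_⟩
    by_contra hne
    push Not at hne
    apply hk
    funext i
    by_cases h : i ∈ s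
    · have h1 := hcell x hx i h
      rw [hkyodd x i h h1.1 h1.2]
      have h2 := hne (ε ⟨i, h⟩)
      rw [hψ x i h] at h2
      constructor
      · rcases lt_or_eq_of_le h1.1 with h3 | h3
        · exact h3
        · exact absurd (by linarith) h2.1
      · rcases lt_or_eq_of_le h1.2 with h3 | h3
        · exact h3
        · exact absurd (by linarith) h2.2
    · exact hkyeven x i h (hcell2 x hx i h)

end Pool.Agent.Helper80.FX
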